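import Mathlib

set_option autoImplicit false

/-!
MP_e326dc_an: multicorrelations along real polynomials and Riemann integrable nilsequences.
The definitions of the final statement.
-/

namespace MP_e326dc_an

open MeasureTheory Filter Topology
open scoped ContDiff Manifold ENNReal

/-! ### Measure preserving actions and multicorrelations -/

/-- A measure preserving action of the abelian group `A` on `(X, μ)`. -/
structure MPAction (A : Type*) [AddCommGroup A] (X : Type*) [MeasurableSpace X]
    (μ : Measure X) where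
  /-- The transformation attached to `v`. -/
  T : A → X → X
  T_zero : ∀ x, T 0 x = x
  T_add : ∀ v w x, T (v + w) x = T v (T w x)
  mp : ∀ v, MeasurePreserving (T v) μ μ

/-- The multicorrelation `α(n) = ∫ f₀ · T^{⌊q₁(n)⌋} f₁ ⋯ T^{⌊q_m(n)⌋} f_m dμ` along the vector
polynomials `q i = (q i 1, …, q i ℓ)` with real coefficients. -/
noncomputable def multicorr {ℓ m : ℕ} {X : Type*} [MeasurableSpace X] {μ : Measure X}
    (T : MPAction (Fin ℓ → ℤ) X μ) (q : Fin m → Fin ℓ → Polynomial ℝ) (f₀ : X → ℂ)
    (f : Fin m → X → ℂ) (n : ℕ) : ℂ :=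
  ∫ x, f₀ x * ∏ i, f i (T.T (fun j => ⌊(q i j).eval (n : ℝ)⌋) x) ∂μ

/-! ### The seminorm -/

/-- The seminorm `limsup_{L → ∞} sup_M (1/L) ∑_{n=M}^{M+L-1} |a n|`. -/
noncomputable def uNorm (a : ℕ → ℂ) : ℝ≥0∞ :=
  limsup (fun L : ℕ => ⨆ M : ℕ, (∑ n ∈ Finset.Ico M (M + L), ‖a n‖ₑ) / L) atTop

/-! ### Nilmanifolds -/

/-- A nilmanifold `G ⧸ Γ` (`G` a nilpotent Lie group, `Γ` a discrete cocompact subgroup) with a
translation `g` and a point `y`. -/
structure NilSystem where
  /-- The nilpotent Lie group. -/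
  G : Type
  [grp : Group G]
  [top : TopologicalSpace G]
  [t2 : T2Space G]
  [sc : SecondCountableTopology G]
  /-- The model space of the Lie group. -/
  E : Type
  [nacg : NormedAddCommGroup E]
  [nsp : NormedSpace ℝ E]
  [fd : FiniteDimensional ℝ E]
  [charted : ChartedSpace E G]
  [lie : LieGroup 𝓘(ℝ, E) ∞ G]
  nilp : Group.IsNilpotent G
  /-- The discrete cocompact subgroup. -/
  Γ : Subgroup G
  disc : DiscreteTopology Γ
  cocomp : CompactSpace (G ⧸ Γ)
  /-- The translation. -/
  g : G
  /-- The base point. -/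
  y : G ⧸ Γ

attribute [instance] NilSystem.grp NilSystem.top NilSystem.t2 NilSystem.sc NilSystem.nacg
  NilSystem.nsp NilSystem.fd NilSystem.charted NilSystem.lie

namespace NilSystem

variable (S : NilSystem)

/-- The nilmanifold. -/
abbrev Y : Type := S.G ⧸ S.Γ

/-- The Borel `σ`-algebra of the nilmanifold. -/
instance : MeasurableSpace S.Y := borel _

instance : BorelSpace S.Y := ⟨rfl⟩

/-- The translation by `g` is minimal: all the forward orbits are dense. -/
def Minimal : Prop := ∀ x : S.Y, Dense (Set.range fun n : ℕ => S.g ^ n • x)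

/-- `F` is bounded, and its discontinuity set is null for every Borel probability measure on
`G ⧸ Γ` which is invariant under the translation by `g`, in particular for the Haar measure of
`G ⧸ Γ`. -/
def RiemannIntegrable (F : S.Y → ℂ) : Prop :=
  (∃ C : ℝ, ∀ x, ‖F x‖ ≤ C) ∧
  ∀ ν : Measure S.Y, IsProbabilityMeasure ν →
    Measure.map (fun x : S.Y => S.g • x) ν = ν → ν {x | ¬ ContinuousAt F x} = 0

end NilSystem

/-- Uniform limits of Riemann integrable nilsequences (with minimal translations). -/
def IsRNil (φ : ℕ → ℂ) : Prop :=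
  ∀ ε : ℝ, 0 < ε → ∃ (S : NilSystem) (F : S.Y → ℂ), S.Minimal ∧ S.RiemannIntegrable F ∧
    ∀ n, ‖φ n - F (S.g ^ n • S.y)‖ < ε

end MP_e326dc_an
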