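import Mathlib

/-!
# MP_e326dc_an : common definitions (averages over boxes, polynomial maps, dynamical cubes)

Vertices of the cube with directions `ι` are the elements of `Finset ι`.
-/

open Filter Topology
open scoped ComplexConjugate

namespace MP_e326dc_an

/-! ## Averages, boxes, null sequences -/

/-- average of `f` over the finite set `s` -/
noncomputable def avg {α E : Type*} [AddCommGroup E] [Module ℝ E] (s : Finset α) (f : α → E) : E :=
  ((s.card : ℝ)⁻¹) • ∑ i ∈ s, f i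

/-- the box with lower corner `M` and sides `L` in `ℤ^ι` -/
noncomputable def box {ι : Type*} [Fintype ι] [DecidableEq ι] (M : ι → ℤ) (L : ι → ℕ) :
    Finset (ι → ℤ) :=
  Fintype.piFinset fun i => Finset.Ico (M i) (M i + (L i : ℤ))

/-- the window `[M, M + L)` in `ℤ` -/
noncomputable def win (M : ℤ) (L : ℕ) : Finset ℤ := Finset.Ico M (M + (L : ℤ))

/-- Box averages of `f` are uniformly Cauchy. -/
def UCauchy {ι E : Type*} [Fintype ι] [DecidableEq ι] [SeminormedAddCommGroup E] [Module ℝ E]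
    (f : (ι → ℤ) → E) : Prop :=
  ∀ ε : ℝ, 0 < ε → ∃ N : ℕ, ∀ (M M' : ι → ℤ) (L L' : ι → ℕ),
    (∀ i, N ≤ L i) → (∀ i, N ≤ L' i) → ‖avg (box M L) f - avg (box M' L') f‖ ≤ ε

/-- Box averages of `f` tend to `a`, uniformly in the position of the box. -/
def UTendsto {ι E : Type*} [Fintype ι] [DecidableEq ι] [SeminormedAddCommGroup E] [Module ℝ E]
    (f : (ι → ℤ) → E) (a : E) : Prop :=
  ∀ ε : ℝ, 0 < ε → ∃ N : ℕ, ∀ (M : ι → ℤ) (L : ι → ℕ),
    (∀ i, N ≤ L i) → ‖avg (box M L) f - a‖ ≤ ε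

/-- Window averages of `f : ℤ → E` tend to `a`, uniformly in the position of the window. -/
def WTendsto {E : Type*} [SeminormedAddCommGroup E] [Module ℝ E] (f : ℤ → E) (a : E) : Prop :=
  ∀ ε : ℝ, 0 < ε → ∃ N : ℕ, ∀ (M : ℤ) (L : ℕ), N ≤ L → ‖avg (win M L) f - a‖ ≤ ε

/-- Window averages of `|f|` tend to `0` uniformly. -/
def Null {E : Type*} [SeminormedAddCommGroup E] (f : ℤ → E) : Prop :=
  WTendsto (fun n => ‖f n‖) (0 : ℝ)

/-- bounded sequences -/
def Bdd {E : Type*} [SeminormedAddCommGroup E] (f : ℤ → E) : Prop := ∃ C : ℝ, ∀ n, ‖f n‖ ≤ C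

/-- conjugate `z` if `S` has an odd number of elements -/
noncomputable def cconj {ι : Type*} (S : Finset ι) (z : ℂ) : ℂ :=
  if Even S.card then z else conj z

/-- `n + S·h`, `S·h = ∑_{i∈S} h i` -/
def expo {ι : Type*} (n : ℤ) (h : ι → ℤ) (S : Finset ι) : ℤ := n + ∑ i ∈ S, h i

/-- `c` is cube null of order `ι`: box averages of `∏_S C^{|S|} c(n+S·h)` over `(n,h)` in
`ℤ × ℤ^ι` (index type `Option ι`, `none` for `n`) tend to zero -/
def CubeNull (ι : Type) [Fintype ι] [DecidableEq ι] (c : ℤ → ℂ) : Prop :=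
  UTendsto (fun v : Option ι → ℤ =>
    ∏ S : Finset ι, cconj S (c (expo (v none) (fun i => v (some i)) S))) (0 : ℂ)

/-! ## Polynomial maps between abelian groups -/

/-- polynomial maps of degree at most `n` -/
def PolyLE {A G : Type*} [AddCommGroup A] [AddCommGroup G] : ℕ → (A → G) → Prop
  | 0, p => ∀ x y, p x = p y
  | (n + 1), p => ∀ h, PolyLE n (fun x => p (x + h) - p x)

/-! ## Topological systems and dynamical cubes -/

section dyn
variable {X : Type*} [TopologicalSpace X]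

/-- dynamical cube -/
def dcube {ι : Type*} (T : X ≃ₜ X) (n : ℤ) (h : ι → ℤ) (x : X) : Finset ι → X :=
  fun S => (T ^ expo n h S) x

/-- the closed set of cubes with directions `ι` -/
def Cub (T : X ≃ₜ X) (ι : Type*) : Set (Finset ι → X) :=
  closure {c | ∃ (n : ℤ) (h : ι → ℤ) (x : X), c = dcube T n h x}

/-- the action of `(n,h)` (index type `Option ι`, `none` for `n`) on `X^{cube}` -/
def cact {ι : Type*} (T : X ≃ₜ X) (v : Option ι → ℤ) (c : Finset ι → X) : Finset ι → X :=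
  fun S => (T ^ expo (v none) (fun i => v (some i)) S) (c S)

/-- order at most `s` : cubes of dimension `s+1` are determined by all vertices but one -/
def UniqCub (T : X ≃ₜ X) (s : ℕ) : Prop :=
  ∀ c ∈ Cub T (Fin (s + 1)), ∀ c' ∈ Cub T (Fin (s + 1)),
    (∀ S, S ≠ Finset.univ → c S = c' S) → c = c'

/-- minimality -/
def IsMin (T : X ≃ₜ X) : Prop := ∀ x, Dense (Set.range fun n : ℤ => (T ^ n) x)

/-- distality -/
def Distal (T : X ≃ₜ X) : Prop :=
  ∀ x y z : X, (∀ U ∈ 𝓝 z, ∃ n : ℤ, (T ^ n) x ∈ U ∧ (T ^ n) y ∈ U) → x = y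

/-- the cube `(z,…,z,x)` with `x` at the top vertex -/
def vcube {ι : Type*} [Fintype ι] [DecidableEq ι] (z x : X) : Finset ι → X :=
  fun S => if S = Finset.univ then x else z

/-- apply `g` on the face `{S : J ⊆ S}` -/
def faceAct {ι : Type*} [DecidableEq ι] (g : X → X) (J : Finset ι) (c : Finset ι → X) :
    Finset ι → X :=
  fun S => if J ⊆ S then g (c S) else c S

/-- the cube with directions `Option ι`, lower facet (`none ∉ S`) `c` and upper facet `c'` -/
def pairCube {ι : Type*} [DecidableEq ι] (c c' : Finset ι → X) : Finset (Option ι) → X :=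
  fun S => if none ∈ S then c' S.eraseNone else c S.eraseNone

/-- gluing of two cubes along the direction `i` -/
def glue {ι : Type*} [DecidableEq ι] (i : ι) (c c' : Finset ι → X) : Finset ι → X :=
  fun S => if i ∈ S then c' S else c S

/-- affine maps of discrete cubes -/
def AffMap {ι κ : Type*} (ψ : Finset κ → Finset ι) : Prop :=
  ∀ h : ι → ℤ, ∃ (m : ℤ) (h' : κ → ℤ), ∀ S, ∑ i ∈ ψ S, h i = m + ∑ j ∈ S, h' j

/-- `c ∈ Q_ι` implies `(c, g c) ∈ Q_{Option ι}`, all finite `ι` -/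
def HalfTransl (T : X ≃ₜ X) (g : X → X) : Prop :=
  ∀ (ι : Type) [Fintype ι] [DecidableEq ι], ∀ c ∈ Cub T ι,
    pairCube c (fun S => g (c S)) ∈ Cub T (Option ι)

/-- translations : the group `G(X)` -/
def IsTransl (T : X ≃ₜ X) (g : X ≃ₜ X) : Prop := HalfTransl T g ∧ HalfTransl T g.symm

/-- the elements of the structure group `A_s(X)` (`s ≥ 1`) -/
def IsStr (T : X ≃ₜ X) (s : ℕ) (a : X ≃ₜ X) : Prop :=
  (∀ x, a (T x) = T (a x)) ∧ ∀ x, (vcube x (a x) : Finset (Fin s) → X) ∈ Cub T (Fin s)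

end dyn

/-- compact Hausdorff topological systems -/
structure DSys where
  X : Type
  [top : TopologicalSpace X]
  [cpt : CompactSpace X]
  [t2 : T2Space X]
  T : X ≃ₜ X

attribute [instance] DSys.top DSys.cpt DSys.t2

/-- the space is not empty, the system is minimal and of order at most `s` -/
structure DSys.Ord (P : DSys) (s : ℕ) : Prop where
  ne : Nonempty P.X
  min : IsMin P.T
  uniq : UniqCub P.T s

/-- a factor map -/
structure DFactor (P Q : DSys) where
  π : P.X → Q.X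
  cont : Continuous π
  surj : Function.Surjective π
  equi : ∀ x, π (P.T x) = Q.T (π x)

/-- sequences of order at most `s` : `F(T^n z)` on a minimal metrizable system of order at most `s` -/
def OrdSeq (s : ℕ) (φ : ℤ → ℂ) : Prop :=
  ∃ (P : DSys) (_ : TopologicalSpace.MetrizableSpace P.X) (_ : P.Ord s) (z : P.X) (F : C(P.X, ℂ)),
    ∀ n : ℤ, φ n = F ((P.T ^ n) z)

/-- the class `C_s` : sequence of order at most `s` plus a null sequence -/
def OrdNull (s : ℕ) (φ : ℤ → ℂ) : Prop :=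
  Bdd φ ∧ ∃ ψ : ℤ → ℂ, OrdSeq s ψ ∧ Null (fun n => φ n - ψ n)

/-! ## The algebra of tame sequences -/

/-- A translation invariant algebra of bounded sequences, closed under conjugation and uniform limits,
containing the bounded null sequences and the sequences of finite order, for which cubic box averages
converge. -/
structure TameAlg (W : Set (ℤ → ℂ)) : Prop where
  bdd : ∀ φ ∈ W, Bdd φ
  add : ∀ φ ∈ W, ∀ ψ ∈ W, (fun n => φ n + ψ n) ∈ W
  mul : ∀ φ ∈ W, ∀ ψ ∈ W, (fun n => φ n * ψ n) ∈ W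
  conj_mem : ∀ φ ∈ W, (fun n => conj (φ n)) ∈ W
  shift : ∀ φ ∈ W, ∀ k : ℤ, (fun n => φ (n + k)) ∈ W
  const : ∀ c : ℂ, (fun _ => c) ∈ W
  null : ∀ φ : ℤ → ℂ, Bdd φ → Null φ → φ ∈ W
  ord : ∀ (s : ℕ) (φ : ℤ → ℂ), OrdSeq s φ → φ ∈ W
  closed : ∀ φ : ℤ → ℂ, (∀ ε : ℝ, 0 < ε → ∃ ψ ∈ W, ∀ n, ‖φ n - ψ n‖ ≤ ε) → φ ∈ W
  conv : ∀ (ι : Type) [Fintype ι] [DecidableEq ι] (φ : Finset ι → ℤ → ℂ), (∀ S, φ S ∈ W) →
    UCauchy (fun v : Option ι → ℤ => ∏ S : Finset ι, φ S (expo (v none) (fun i => v (some i)) S))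

end MP_e326dc_an
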